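import Pool.Agent.T44.GF.Stm

/-!
# The abstract criterion with homogeneous relations on the subtorsor
-/

set_option autoImplicit false
set_option linter.unusedSectionVars false

open Matrix Module

namespace Pool.Agent.H82.GF

open Pool.Agent.TH127.PT Pool.Agent.Y123.ST Pool.Agent.TH119.DR Pool.Agent.Y123.GN Pool.Agent.T44.GF

variable {M : Type} [Fintype M] [DecidableEq M]

/-- functions given by homogeneous polynomials of degree `d` -/
def HF (d : ℕ) (F : Matrix M M ℂ → ℂ) : Prop :=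
  ∃ P : MvPolynomial (M × M) ℂ, P.IsHomogeneous d ∧ ∀ X, F X = MvPolynomial.eval (fl X) P

theorem HF.const (a : ℂ) : HF (M := M) 0 (fun _ => a) :=
  ⟨MvPolynomial.C a, MvPolynomial.isHomogeneous_C _ _, fun X => by rw [MvPolynomial.eval_C]⟩

theorem HF.zero (d : ℕ) : HF (M := M) d (fun _ => 0) :=
  ⟨0, MvPolynomial.isHomogeneous_zero _ _ _, fun X => by rw [map_zero]⟩

theorem HF.coord (a b : M) : HF (M := M) 1 (fun X => X a b) :=
  ⟨MvPolynomial.X (a, b), MvPolynomial.isHomogeneous_X _ _, fun X => by rw [MvPolynomial.eval_X]; rfl⟩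

theorem HF.mul {d e : ℕ} {F G : Matrix M M ℂ → ℂ} (hF : HF d F) (hG : HF e G) :
    HF (d + e) (fun X => F X * G X) := by
  obtain ⟨P, h1, h2⟩ := hF
  obtain ⟨P', h1', h2'⟩ := hG
  refine ⟨P * P', h1.mul h1', fun X => ?_⟩
  rw [map_mul, ← h2, ← h2']

theorem HF.add {d : ℕ} {F G : Matrix M M ℂ → ℂ} (hF : HF d F) (hG : HF d G) : HF d (fun X => F X + G X) := by
  obtain ⟨P, h1, h2⟩ := hF
  obtain ⟨P', h1', h2'⟩ := hG
  refine ⟨P + P', h1.add h1', fun X => ?_⟩
  rw [map_add, ← h2, ← h2']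

theorem HF.sub {d : ℕ} {F G : Matrix M M ℂ → ℂ} (hF : HF d F) (hG : HF d G) : HF d (fun X => F X - G X) := by
  obtain ⟨P, h1, h2⟩ := hF
  obtain ⟨P', h1', h2'⟩ := hG
  refine ⟨P - P', h1.sub h1', fun X => ?_⟩
  rw [map_sub, ← h2, ← h2']

theorem HF.sum {d : ℕ} {ι : Type*} (s : Finset ι) {F : ι → Matrix M M ℂ → ℂ}
    (hF : ∀ i ∈ s, HF d (F i)) : HF d (fun X => ∑ i ∈ s, F i X) := by
  classical
  induction s using Finset.induction_on with
  | empty =>
    simp only [Finset.sum_empty]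
    exact HF.zero d
  | insert i s hi ih =>
    simp only [Finset.sum_insert hi]
    exact (hF i (Finset.mem_insert_self _ _)).add (ih fun k hk => hF k (Finset.mem_insert_of_mem hk))

theorem HF.prod {ι : Type*} (s : Finset ι) {d : ι → ℕ} {F : ι → Matrix M M ℂ → ℂ}
    (hF : ∀ i ∈ s, HF (d i) (F i)) : HF (∑ i ∈ s, d i) (fun X => ∏ i ∈ s, F i X) := by
  classical
  induction s using Finset.induction_on with
  | empty =>
    simp only [Finset.prod_empty, Finset.sum_empty]
    exact HF.const 1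
  | insert i s hi ih =>
    simp only [Finset.prod_insert hi, Finset.sum_insert hi]
    exact (hF i (Finset.mem_insert_self _ _)).mul (ih fun k hk => hF k (Finset.mem_insert_of_mem hk))

/-- matrices of homogeneous functions -/
def HM (d : ℕ) (F : Matrix M M ℂ → Matrix M M ℂ) : Prop := ∀ a b, HF d (fun X => F X a b)

theorem HM.const (A : Matrix M M ℂ) : HM 0 (fun _ : Matrix M M ℂ => A) := fun _ _ => HF.const _

theorem HM.id : HM 1 (fun X : Matrix M M ℂ => X) := fun a b => HF.coord a b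

theorem HM.mul {d e : ℕ} {F G : Matrix M M ℂ → Matrix M M ℂ} (h : HM d F) (h' : HM e G) :
    HM (d + e) (fun X => F X * G X) := by
  intro a b
  simp only [Matrix.mul_apply]
  exact HF.sum _ fun k _ => (h a k).mul (h' k b)

theorem HM.sub {d : ℕ} {F G : Matrix M M ℂ → Matrix M M ℂ} (h : HM d F) (h' : HM d G) :
    HM d (fun X => F X - G X) := by
  intro a b
  simp only [Matrix.sub_apply]
  exact (h a b).sub (h' a b)

theorem HM.cast {d e : ℕ} {F : Matrix M M ℂ → Matrix M M ℂ} (h : HM d F) (he : d = e) : HM e F := he ▸ h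

theorem HM.pow {d : ℕ} {F : Matrix M M ℂ → Matrix M M ℂ} (h : HM d F) (k : ℕ) : HM (k * d) (fun X => F X ^ k) := by
  induction k with
  | zero =>
    simp only [pow_zero, zero_mul]
    exact HM.const 1
  | succ k ih =>
    simp only [pow_succ]
    exact (ih.mul h).cast (by rw [Nat.succ_mul])

theorem HM.adj : HM (Fintype.card M - 1) (fun X : Matrix M M ℂ => X.adjugate) := by
  classical
  intro a b
  simp only [Matrix.adjugate_apply, Matrix.det_apply]
  refine HF.sum _ fun σ _ => ?_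
  have h1 : HF (∑ i ∈ (Finset.univ : Finset M), if σ i = b then 0 else 1)
      (fun X : Matrix M M ℂ => ∏ i ∈ (Finset.univ : Finset M), (X.updateRow b (Pi.single a 1)) (σ i) i) := by
    refine HF.prod _ fun i _ => ?_
    by_cases h : σ i = b
    · rw [if_pos h, h]
      simp only [Matrix.updateRow_self]
      exact HF.const _
    · rw [if_neg h]
      simp only [Matrix.updateRow_ne h]
      exact HF.coord _ _
  have h3 : (∑ i ∈ (Finset.univ : Finset M), if σ i = b then 0 else 1) = Fintype.card M - 1 := by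
    have h4 : (∑ i ∈ (Finset.univ : Finset M), if σ i = b then 0 else 1) = ∑ i : M, if i = b then 0 else 1 :=
      Equiv.sum_comp σ (fun i => if i = b then 0 else 1)
    rw [h4]
    have h5 : (∑ i : M, if i = b then 0 else 1) + (∑ i : M, if i = b then 1 else 0) = Fintype.card M := by
      rw [← Finset.sum_add_distrib]
      have : ∀ i : M, ((if i = b then 0 else 1) + (if i = b then 1 else 0) : ℕ) = 1 := by
        intro i
        split_ifs <;> rfl
      rw [Finset.sum_congr rfl fun i _ => this i]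
      simp
    have h6 : (∑ i : M, if i = b then 1 else 0 : ℕ) = 1 := by simp
    omega
  rw [h3] at h1
  have h2 := (HF.const (M := M) ((Equiv.Perm.sign σ : ℤ) : ℂ)).mul h1
  rw [zero_add] at h2
  convert h2 using 2 with X
  rw [Units.smul_def, zsmul_eq_mul]

/-- linear functionals -/
theorem HM.func {d : ℕ} {F : Matrix M M ℂ → Matrix M M ℂ} (h : HM d F) (φ : (M × M → ℂ) →ₗ[ℂ] ℂ) :
    HF d (fun X => φ (fl (F X))) := by
  have h1 : (fun X => φ (fl (F X))) = fun X => ∑ b, φ (Pi.single b 1) * fl (F X) b := by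
    funext X
    exact func_eq φ _
  rw [h1]
  refine HF.sum _ fun b _ => ?_
  have := (HF.const (M := M) (φ (Pi.single b 1))).mul (h b.1 b.2)
  rw [zero_add] at this
  exact this

variable {K : Subfield ℂ} {T : Set (Matrix M M ℂ)}

theorem transferH {x : Matrix M M ℂ} {d : ℕ} (hr : RhT T d x)
    {F : Matrix M M ℂ → ℂ} (hF : HF d F) (hv : ∀ X ∈ T, F X = 0) : F x = 0 := by
  obtain ⟨P, h1, h2⟩ := hF
  rw [h2]
  exact hr P h1 fun X hX => by rw [← h2]; exact hv X hX

/-- **normality** -/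
theorem normalH (hT : IsSubtorsor K T) {c g : Matrix M M ℂ} (hM : 1 ≤ Fintype.card M) (hc : c ∈ T) (hg : IsUnit g.det)
    (hr : RhT T (Fintype.card M) (g * c)) {w : Matrix M M ℂ} (hw : fl w ∈ LL T) : fl (g * w * g⁻¹) ∈ LL T := by
  by_contra hcon
  obtain ⟨φ, hφ1, hφ2⟩ := Submodule.exists_le_ker_of_notMem hcon
  apply hφ1
  have hcd := Tdet hT hc
  have hgc : IsUnit (g * c).det := by rw [det_mul]; exact hg.mul hcd
  have hPM : HM (Fintype.card M) (fun X : Matrix M M ℂ => X * (c⁻¹ * w * c) * X.adjugate) := by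
    have h1 := (HM.id (M := M)).mul (HM.const (c⁻¹ * w * c))
    exact (h1.mul HM.adj).cast (by omega)
  have h1 := transferH hr (hPM.func φ) (by
    intro X hX
    show φ (fl (X * (c⁻¹ * w * c) * X.adjugate)) = 0
    rw [adj_eq (Tdet hT hX), Matrix.mul_smul, fl_smul, map_smul]
    have := hφ2 (quot_LL hT hc hX hw)
    rw [LinearMap.mem_ker] at this
    rw [this, smul_zero])
  rw [adj_eq hgc, Matrix.mul_smul, fl_smul, map_smul, smul_eq_mul] at h1
  have h2 := (mul_eq_zero.1 h1).resolve_left hgc.ne_zero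
  have h3 : g * c * (c⁻¹ * w * c) * (g * c)⁻¹ = g * w * g⁻¹ := by
    rw [Matrix.mul_inv_rev]
    have e1 : c * c⁻¹ = 1 := mul_nonsing_inv _ hcd
    calc g * c * (c⁻¹ * w * c) * (c⁻¹ * g⁻¹) = g * (c * c⁻¹) * w * (c * c⁻¹) * g⁻¹ := by
          simp only [Matrix.mul_assoc]
      _ = g * w * g⁻¹ := by rw [e1, Matrix.mul_one, Matrix.mul_one]
  rw [h3] at h2
  exact h2

theorem hm_left {c : Matrix M M ℂ} (J : ℕ) : HM (J * 1) (fun X : Matrix M M ℂ => (X * c⁻¹) ^ J) := by
  have h1 := (HM.id (M := M)).mul (HM.const c⁻¹)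
  exact h1.pow J

theorem hm_right {c : Matrix M M ℂ} (J : ℕ) :
    HM (J * (Fintype.card M - 1)) (fun X : Matrix M M ℂ => (c * X.adjugate) ^ J) := by
  have h1 := (HM.const c).mul (HM.adj (M := M))
  rw [zero_add] at h1
  exact h1.pow J

/-- the left and right multiplications -/
theorem hm_all {c : Matrix M M ℂ} (hM : 1 ≤ Fintype.card M) (J : ℕ) (A P R S : Matrix M M ℂ) :
    HM (J * Fintype.card M) (fun X : Matrix M M ℂ =>
      (X * c⁻¹) ^ J * A * (c * X.adjugate) ^ J - P * ((X * c⁻¹) ^ J * S * (c * X.adjugate) ^ J) * R) := by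
  have he : J * 1 + J * (Fintype.card M - 1) = J * Fintype.card M := by
    rw [← Nat.mul_add]
    congr 1
    omega
  refine HM.sub ?_ ?_
  · have h1 := ((hm_left (c := c) J).mul (HM.const A)).mul (hm_right (c := c) J)
    exact h1.cast (by omega)
  · have h1 := ((hm_left (c := c) J).mul (HM.const S)).mul (hm_right (c := c) J)
    have h2 := ((HM.const P).mul h1).mul (HM.const R)
    exact h2.cast (by omega)

/-- one step of the transfer -/
theorem stepH (hT : IsSubtorsor K T) (hM : 1 ≤ Fintype.card M) {c g A P R S : Matrix M M ℂ} {J : ℕ} (hc : c ∈ T)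
    (hg : IsUnit g.det) (hr : RhT T (J * Fintype.card M) (g * c))
    (h : ∀ X ∈ T, fl ((X * c⁻¹) ^ J * A * (c * X⁻¹) ^ J - P * ((X * c⁻¹) ^ J * S * (c * X⁻¹) ^ J) * R) ∈ LL T) :
    fl (g ^ J * A * g⁻¹ ^ J - P * (g ^ J * S * g⁻¹ ^ J) * R) ∈ LL T := by
  by_contra hcon
  obtain ⟨φ, hφ1, hφ2⟩ := Submodule.exists_le_ker_of_notMem hcon
  apply hφ1
  have hcd := Tdet hT hc
  have hgc : IsUnit (g * c).det := by rw [det_mul]; exact hg.mul hcd
  have e0 : ∀ X : Matrix M M ℂ, IsUnit X.det →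
      (X * c⁻¹) ^ J * A * (c * X.adjugate) ^ J - P * ((X * c⁻¹) ^ J * S * (c * X.adjugate) ^ J) * R =
      X.det ^ J • ((X * c⁻¹) ^ J * A * (c * X⁻¹) ^ J - P * ((X * c⁻¹) ^ J * S * (c * X⁻¹) ^ J) * R) := by
    intro X hX
    rw [cmul_adj_pow hT hX, smul_sub]
    simp only [Matrix.mul_smul, Matrix.smul_mul]
  have h1 := transferH hr ((hm_all (c := c) hM J A P R S).func φ) (by
    intro X hX
    have h2 : φ (fl ((X * c⁻¹) ^ J * A * (c * X.adjugate) ^ J -
      P * ((X * c⁻¹) ^ J * S * (c * X.adjugate) ^ J) * R)) = 0 := by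
      rw [e0 X (Tdet hT hX), fl_smul, map_smul]
      have := hφ2 (h X hX)
      rw [LinearMap.mem_ker] at this
      rw [this, smul_zero]
    exact h2)
  rw [e0 (g * c) hgc, fl_smul, map_smul, smul_eq_mul] at h1
  have h3 := (mul_eq_zero.1 h1).resolve_left (pow_ne_zero _ hgc.ne_zero)
  have h4 : g * c * c⁻¹ = g := by rw [Matrix.mul_assoc, mul_inv' hT hc, Matrix.mul_one]
  have h5 : c * (g * c)⁻¹ = g⁻¹ := by
    rw [Matrix.mul_inv_rev, ← Matrix.mul_assoc, mul_inv' hT hc, Matrix.one_mul]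
  rw [h4, h5] at h3
  exact h3

/-- **the commutation relation after the transfer** -/
theorem comm_transH (hT : IsSubtorsor K T) (hM : 1 ≤ Fintype.card M) {c s g g' : Matrix M M ℂ} {J : ℕ} (hc : c ∈ T)
    (hg : IsUnit g.det) (hg' : IsUnit g'.det)
    (hr : RhT T (J * Fintype.card M) (g * c)) (hr' : RhT T (J * Fintype.card M) (g' * c))
    (h : ∀ X ∈ T, ∀ Y ∈ T,
      fl ((X * c⁻¹) ^ J * ((Y * c⁻¹) ^ J * s * (c * Y⁻¹) ^ J) * (c * X⁻¹) ^ J -
        (Y * c⁻¹) ^ J * ((X * c⁻¹) ^ J * s * (c * X⁻¹) ^ J) * (c * Y⁻¹) ^ J) ∈ LL T) :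
    fl (g ^ J * (g' ^ J * s * g'⁻¹ ^ J) * g⁻¹ ^ J - g' ^ J * (g ^ J * s * g⁻¹ ^ J) * g'⁻¹ ^ J) ∈ LL T := by
  have h1 : ∀ Y ∈ T, fl (g ^ J * ((Y * c⁻¹) ^ J * s * (c * Y⁻¹) ^ J) * g⁻¹ ^ J -
      (Y * c⁻¹) ^ J * (g ^ J * s * g⁻¹ ^ J) * (c * Y⁻¹) ^ J) ∈ LL T := by
    intro Y hY
    exact stepH hT hM hc hg hr fun X hX => h X hX Y hY
  have h2 : ∀ Y ∈ T, fl ((Y * c⁻¹) ^ J * (g ^ J * s * g⁻¹ ^ J) * (c * Y⁻¹) ^ J -
      g ^ J * ((Y * c⁻¹) ^ J * s * (c * Y⁻¹) ^ J) * g⁻¹ ^ J) ∈ LL T := by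
    intro Y hY
    have h3 := Submodule.neg_mem _ (h1 Y hY)
    have h4 : -fl (g ^ J * ((Y * c⁻¹) ^ J * s * (c * Y⁻¹) ^ J) * g⁻¹ ^ J -
      (Y * c⁻¹) ^ J * (g ^ J * s * g⁻¹ ^ J) * (c * Y⁻¹) ^ J) = fl ((Y * c⁻¹) ^ J * (g ^ J * s * g⁻¹ ^ J) * (c * Y⁻¹) ^ J -
      g ^ J * ((Y * c⁻¹) ^ J * s * (c * Y⁻¹) ^ J) * g⁻¹ ^ J) := by
      funext b
      show -((_ - _ : Matrix M M ℂ) b.1 b.2) = (_ - _ : Matrix M M ℂ) b.1 b.2
      rw [Matrix.sub_apply, Matrix.sub_apply, neg_sub]
    rwa [h4] at h3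
  have h5 := stepH hT hM hc hg' hr' h2
  have h6 := Submodule.neg_mem _ h5
  have h7 : -fl (g' ^ J * (g ^ J * s * g⁻¹ ^ J) * g'⁻¹ ^ J - g ^ J * (g' ^ J * s * g'⁻¹ ^ J) * g⁻¹ ^ J) =
      fl (g ^ J * (g' ^ J * s * g'⁻¹ ^ J) * g⁻¹ ^ J - g' ^ J * (g ^ J * s * g⁻¹ ^ J) * g'⁻¹ ^ J) := by
    funext b
    show -((_ - _ : Matrix M M ℂ) b.1 b.2) = (_ - _ : Matrix M M ℂ) b.1 b.2
    rw [Matrix.sub_apply, Matrix.sub_apply, neg_sub]
  rwa [h7] at h6

/-- **The abstract criterion.** -/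
theorem main : S_ABS := by
  classical
  intro m
  obtain ⟨J, hJ1, hJ⟩ := comm_rel (m * m)
  refine ⟨{m, J * m}, ?_⟩
  intro M _ _ hMm K hK T c hT hc 𝒩 hnil hrel hperf
  have hM0 : (J : ℂ) ≠ 0 := by
    have : J ≠ 0 := by omega
    exact_mod_cast this
  rcases Nat.eq_zero_or_pos (Fintype.card M) with h0 | hM
  · intro N _
    have hE : IsEmpty M := Fintype.card_eq_zero_iff.1 h0
    have h1 : fl N = 0 := by
      funext b
      exact hE.elim b.1
    rw [h1]
    exact (LL T).zero_mem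
  have hMle : Fintype.card M ≤ m := hMm.le
  -- the Lie algebra is stable under the brackets
  have hbr : ∀ s ∈ 𝒩, ∀ w, fl w ∈ LL T → fl (w * s - s * w) ∈ LL T := by
    intro s hs w hw
    have h1 : ∀ t : ℂ, fl (IsNilpotent.exp ((-t) • s) * w * IsNilpotent.exp (t • s)) ∈ LL T := by
      intro t
      have h2 := normalH hT hM hc (exp_det (hnil s hs) (-t)) (hMm ▸ hrel s hs (-t) m (by simp)) hw
      rw [exp_inv_eq (hnil s hs), neg_neg] at h2
      exact h2
    have h3 := ((PD.exp_neg (hnil s hs)).mul (PD.const w)).mul (PD.exp (hnil s hs))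
    have h4 := h3.mem (LL T) h1
    have h5 : (-s * w + 1 * 0) * 1 + 1 * w * s = w * s - s * w := by noncomm_ring
    rw [h5] at h4
    exact h4
  -- the double commutators
  have key : ∀ A ∈ 𝒩, ∀ B ∈ 𝒩, ∀ s ∈ 𝒩, fl ((A * B - B * A) * s - s * (A * B - B * A)) ∈ LL T := by
    intro A hA B hB s hs
    have h1 : ∀ t u : ℂ, fl (IsNilpotent.exp (t • A) * (IsNilpotent.exp (u • B) * s * IsNilpotent.exp ((-u) • B)) *
        IsNilpotent.exp ((-t) • A) - IsNilpotent.exp (u • B) * (IsNilpotent.exp (t • A) * s *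
        IsNilpotent.exp ((-t) • A)) * IsNilpotent.exp ((-u) • B)) ∈ LL T := by
      intro t u
      have h2 := comm_transH hT hM hc (exp_det (hnil A hA) (t / J)) (exp_det (hnil B hB) (u / J))
        (hMm ▸ hrel A hA (t / J) (J * m) (by simp)) (hMm ▸ hrel B hB (u / J) (J * m) (by simp))
        (fun X hX Y hY => hJ M (Nat.mul_le_mul hMle hMle) K hK T c s hT hc (hbr s hs) X hX Y hY)
      rw [exp_inv_eq (hnil A hA), exp_inv_eq (hnil B hB), exp_pow (hnil A hA), exp_pow (hnil B hB),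
        exp_pow (hnil A hA), exp_pow (hnil B hB)] at h2
      have e1 : (J : ℂ) * (t / J) = t := by field_simp
      have e2 : (J : ℂ) * (u / J) = u := by field_simp
      have e3 : (J : ℂ) * (-(t / J)) = -t := by field_simp
      have e4 : (J : ℂ) * (-(u / J)) = -u := by field_simp
      rw [e1, e2, e3, e4] at h2
      exact h2
    -- the derivative in `t`
    have h2 : ∀ u : ℂ, fl (A * (IsNilpotent.exp (u • B) * s * IsNilpotent.exp ((-u) • B)) -
        (IsNilpotent.exp (u • B) * s * IsNilpotent.exp ((-u) • B)) * A -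
        IsNilpotent.exp (u • B) * (A * s - s * A) * IsNilpotent.exp ((-u) • B)) ∈ LL T := by
      intro u
      set E := IsNilpotent.exp (u • B) with hE
      set E' := IsNilpotent.exp ((-u) • B) with hE'
      have h3 := (((PD.exp (hnil A hA)).mul (PD.const (E * s * E'))).mul (PD.exp_neg (hnil A hA))).sub
        (((PD.const E).mul (((PD.exp (hnil A hA)).mul (PD.const s)).mul (PD.exp_neg (hnil A hA)))).mul (PD.const E'))
      have h4 := h3.mem (LL T) (fun t => h1 t u)
      have h5 : ((A * (E * s * E') + 1 * 0) * 1 + 1 * (E * s * E') * -A -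
          ((0 * (1 * s * 1) + E * ((A * s + 1 * 0) * 1 + 1 * s * -A)) * E' + E * (1 * s * 1) * 0)) =
          A * (E * s * E') - (E * s * E') * A - E * (A * s - s * A) * E' := by noncomm_ring
      rw [h5] at h4
      exact h4
    -- the derivative in `u`
    have h6 := ((PD.exp (hnil B hB)).mul (PD.const s)).mul (PD.exp_neg (hnil B hB))
    have h7 := (((PD.const A).mul h6).sub (h6.mul (PD.const A))).sub
      (((PD.exp (hnil B hB)).mul (PD.const (A * s - s * A))).mul (PD.exp_neg (hnil B hB)))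
    have h8 := h7.mem (LL T) h2
    have h9 : (0 * (1 * s * 1) + A * ((B * s + 1 * 0) * 1 + 1 * s * -B) -
        (((B * s + 1 * 0) * 1 + 1 * s * -B) * A + 1 * s * 1 * 0) -
        ((B * (A * s - s * A) + 1 * 0) * 1 + 1 * (A * s - s * A) * -B)) =
        (A * B - B * A) * s - s * (A * B - B * A) := by noncomm_ring
    rw [h9] at h8
    exact h8
  -- the commutators
  have key2 : ∀ A ∈ 𝒩, ∀ B ∈ 𝒩, fl (A * B - B * A) ∈ LL T := by
    intro A hA B hB
    have h1 : ∀ A' ∈ Submodule.span ℂ {C : Matrix M M ℂ | ∃ A ∈ 𝒩, ∃ B ∈ 𝒩, C = A * B - B * A},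
        fl (A' * B - B * A') ∈ LL T := by
      intro A' hA'
      induction hA' using Submodule.span_induction with
      | mem x hx =>
        obtain ⟨C, hC, D, hD, rfl⟩ := hx
        exact key C hC D hD B hB
      | zero =>
        rw [Matrix.zero_mul, Matrix.mul_zero, sub_zero, fl_zero]
        exact (LL T).zero_mem
      | add x y _ _ hx hy =>
        have h2 : (x + y) * B - B * (x + y) = (x * B - B * x) + (y * B - B * y) := by noncomm_ring
        rw [h2, fl_add]
        exact (LL T).add_mem hx hy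
      | smul z x _ hx =>
        have h2 : (z • x) * B - B * (z • x) = z • (x * B - B * x) := by
          rw [Matrix.smul_mul, Matrix.mul_smul, smul_sub]
        rw [h2, fl_smul]
        exact (LL T).smul_mem z hx
    exact h1 A (hperf A hA)
  intro N hN
  have h1 : ∀ A' ∈ Submodule.span ℂ {C : Matrix M M ℂ | ∃ A ∈ 𝒩, ∃ B ∈ 𝒩, C = A * B - B * A}, fl A' ∈ LL T := by
    intro A' hA'
    induction hA' using Submodule.span_induction with
    | mem x hx =>
      obtain ⟨C, hC, D, hD, rfl⟩ := hx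
      exact key2 C hC D hD
    | zero =>
      rw [fl_zero]
      exact (LL T).zero_mem
    | add x y _ _ hx hy =>
      rw [fl_add]
      exact (LL T).add_mem hx hy
    | smul z x _ hx =>
      rw [fl_smul]
      exact (LL T).smul_mem z hx
  exact h1 N (hperf N hN)

end Pool.Agent.H82.GF
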