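import Mathlib

/-!
# Subalgebras of small codimension of the trace-zero matrices
-/

set_option autoImplicit false
set_option linter.unusedSectionVars false

open Matrix

namespace Pool.Agent.H82.GF

theorem pow_aux (a b c e : ℕ) (hab : a ≤ b) (hce : c ≤ e) (h : 3 ^ a + 3 ^ b = 3 ^ c + 3 ^ e) : a = c ∧ b = e := by
  have hb : b = e := by
    rcases lt_trichotomy b e with h1 | h1 | h1
    · exfalso
      have h2 : 3 ^ (b + 1) ≤ 3 ^ e := Nat.pow_le_pow_right (by norm_num) h1
      have h3 : 3 ^ a ≤ 3 ^ b := Nat.pow_le_pow_right (by norm_num) hab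
      have h4 : 0 < 3 ^ c := by positivity
      have h5 : 0 < 3 ^ b := by positivity
      rw [pow_succ] at h2
      omega
    · exact h1
    · exfalso
      have h2 : 3 ^ (e + 1) ≤ 3 ^ b := Nat.pow_le_pow_right (by norm_num) h1
      have h3 : 3 ^ c ≤ 3 ^ e := Nat.pow_le_pow_right (by norm_num) hce
      have h4 : 0 < 3 ^ a := by positivity
      have h5 : 0 < 3 ^ e := by positivity
      rw [pow_succ] at h2
      omega
  subst hb
  have h6 : 3 ^ a = 3 ^ c := by omega
  exact ⟨Nat.pow_right_injective (by norm_num) h6, rfl⟩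

theorem pow_aux2 (a b c e : ℕ) (h : 3 ^ a + 3 ^ b = 3 ^ c + 3 ^ e) : (a = c ∧ b = e) ∨ (a = e ∧ b = c) := by
  rcases le_total a b with h1 | h1 <;> rcases le_total c e with h2 | h2
  · exact Or.inl (pow_aux a b c e h1 h2 h)
  · exact Or.inr (pow_aux a b e c h1 h2 (by omega))
  · obtain ⟨h3, h4⟩ := pow_aux b a c e h1 h2 (by omega)
    exact Or.inr ⟨h4, h3⟩
  · obtain ⟨h3, h4⟩ := pow_aux b a e c h1 h2 (by omega)
    exact Or.inl ⟨h4, h3⟩

variable {n : ℕ}

/-- the degree of a matrix entry -/
def dg (i j : Fin n) : ℤ := (3 : ℤ) ^ (i : ℕ) - 3 ^ (j : ℕ)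

theorem dg_uniq {i j k l : Fin n} (hij : i ≠ j) (h : dg k l = dg i j) : k = i ∧ l = j := by
  unfold dg at h
  have h1 : 3 ^ (k : ℕ) + 3 ^ (j : ℕ) = 3 ^ (i : ℕ) + 3 ^ (l : ℕ) := by
    have : (3 : ℤ) ^ (k : ℕ) + 3 ^ (j : ℕ) = 3 ^ (i : ℕ) + 3 ^ (l : ℕ) := by linarith
    exact_mod_cast this
  rcases pow_aux2 _ _ _ _ h1 with ⟨h2, h3⟩ | ⟨h2, h3⟩
  · exact ⟨Fin.ext h2, Fin.ext h3.symm⟩
  · exact absurd (Fin.ext h3.symm) hij

theorem dg_add (i j k : Fin n) : dg i j + dg j k = dg i k := by
  unfold dg; ring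

theorem dg_self (i : Fin n) : dg i i = 0 := by unfold dg; ring

theorem dg_zero {i j : Fin n} (h : dg i j = 0) : i = j := by
  by_contra hne
  obtain ⟨h1, h2⟩ := dg_uniq hne (show dg i i = dg i j by rw [dg_self, h])
  exact hne h2

theorem dg_lt (i j : Fin n) : dg i j < (3 : ℤ) ^ n := by
  unfold dg
  have h1 : (3 : ℤ) ^ (i : ℕ) ≤ 3 ^ n := pow_le_pow_right₀ (by norm_num) i.2.le
  have h2 : (0 : ℤ) < 3 ^ (j : ℕ) := by positivity
  linarith

theorem dg_gt (i j : Fin n) : -(3 : ℤ) ^ n < dg i j := by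
  unfold dg
  have h1 : (3 : ℤ) ^ (j : ℕ) ≤ 3 ^ n := pow_le_pow_right₀ (by norm_num) j.2.le
  have h2 : (0 : ℤ) < 3 ^ (i : ℕ) := by positivity
  linarith

/-- leading entry `(i, j)` -/
def Ld (z : Matrix (Fin n) (Fin n) ℂ) (i j : Fin n) : Prop :=
  z i j = 1 ∧ ∀ k l, (k, l) ≠ (i, j) → dg i j ≤ dg k l → z k l = 0

theorem mul_lead {z w : Matrix (Fin n) (Fin n) ℂ} {i j p q : Fin n} (hij : i ≠ j) (_hpq : p ≠ q)
    (h1 : Ld z i j) (h2 : Ld w p q) (a b : Fin n) (hd : dg i j + dg p q ≤ dg a b) :
    (z * w) a b = if (j = p ∧ a = i ∧ b = q) then 1 else 0 := by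
  rw [Matrix.mul_apply]
  have key : ∀ m : Fin n, z a m * w m b = if (m = j ∧ j = p ∧ a = i ∧ b = q) then 1 else 0 := by
    intro m
    rcases lt_trichotomy (dg a m) (dg i j) with h3 | h3 | h3
    · -- then dg m b > dg p q
      have h4 : dg p q < dg m b := by
        have := dg_add a m b
        linarith
      have h5 : w m b = 0 := by
        refine h2.2 m b (fun h => ?_) h4.le
        rw [Prod.mk.injEq] at h
        rw [h.1, h.2] at h4
        exact lt_irrefl _ h4
      rw [h5, mul_zero, if_neg]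
      rintro ⟨e1, e2, e3, e4⟩
      rw [e1, e3] at h3
      exact lt_irrefl _ h3
    · obtain ⟨e1, e2⟩ := dg_uniq hij h3
      have h4 : dg p q ≤ dg m b := by
        have := dg_add a m b
        linarith
      by_cases h5 : (m, b) = (p, q)
      · rw [Prod.mk.injEq] at h5
        obtain ⟨e3, e4⟩ := h5
        rw [if_pos ⟨e2, e2.symm.trans e3, e1, e4⟩, e1, e2, h1.1, one_mul, ← e2, e3, e4, h2.1]
      · rw [h2.2 m b h5 h4, mul_zero, if_neg]
        rintro ⟨f1, f2, f3, f4⟩
        exact h5 (by rw [f1, f2, f4])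
    · have h5 : z a m = 0 := by
        refine h1.2 a m (fun h => ?_) h3.le
        rw [Prod.mk.injEq] at h
        rw [h.1, h.2] at h3
        exact lt_irrefl _ h3
      rw [h5, zero_mul, if_neg]
      rintro ⟨e1, e2, e3, e4⟩
      rw [e1, e3] at h3
      exact lt_irrefl _ h3
  rw [Finset.sum_congr rfl fun m _ => key m]
  by_cases h : (j = p ∧ a = i ∧ b = q)
  · rw [if_pos h]
    rw [Finset.sum_eq_single j]
    · rw [if_pos ⟨rfl, h⟩]
    · intro m _ hm
      rw [if_neg]
      rintro ⟨e1, -⟩
      exact hm e1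
    · intro h3
      exact absurd (Finset.mem_univ _) h3
  · rw [if_neg h]
    refine Finset.sum_eq_zero fun m _ => ?_
    rw [if_neg]
    rintro ⟨-, e⟩
    exact h e

/-- an element of `H` with leading entry `(i, j)` -/
def Pr (H : Submodule ℂ (Matrix (Fin n) (Fin n) ℂ)) (i j : Fin n) : Prop :=
  ∃ z ∈ H, z.trace = 0 ∧ Ld z i j

theorem trace_comm_zero (z w : Matrix (Fin n) (Fin n) ℂ) : (z * w - w * z).trace = 0 := by
  rw [Matrix.trace_sub, Matrix.trace_mul_comm, sub_self]

theorem Pr.trans {H : Submodule ℂ (Matrix (Fin n) (Fin n) ℂ)} (hH : ∀ X ∈ H, ∀ Y ∈ H, X * Y - Y * X ∈ H)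
    {i j k : Fin n} (hij : i ≠ j) (hjk : j ≠ k) (hik : i ≠ k) (h1 : Pr H i j) (h2 : Pr H j k) : Pr H i k := by
  obtain ⟨z, hz, -, hzl⟩ := h1
  obtain ⟨w, hw, -, hwl⟩ := h2
  refine ⟨z * w - w * z, hH z hz w hw, trace_comm_zero z w, ?_, ?_⟩
  · rw [Matrix.sub_apply, mul_lead hij hjk hzl hwl i k (by rw [dg_add]),
      mul_lead hjk hij hwl hzl i k (by rw [add_comm, dg_add]), if_pos ⟨rfl, rfl, rfl⟩, if_neg, sub_zero]
    rintro ⟨e, -⟩
    exact hik e.symm
  · intro a b hab hd
    rw [Matrix.sub_apply, mul_lead hij hjk hzl hwl a b (by rw [dg_add]; exact hd),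
      mul_lead hjk hij hwl hzl a b (by rw [add_comm, dg_add]; exact hd), if_neg, if_neg, sub_zero]
    · rintro ⟨e, -⟩
      exact hik e.symm
    · rintro ⟨-, e1, e2⟩
      exact hab (by rw [e1, e2])

theorem Pr.cartan {H : Submodule ℂ (Matrix (Fin n) (Fin n) ℂ)} (hH : ∀ X ∈ H, ∀ Y ∈ H, X * Y - Y * X ∈ H)
    (i o : Fin n) (h1 : i ≠ o → Pr H i o) (h2 : i ≠ o → Pr H o i) :
    ∃ h ∈ H, h.trace = 0 ∧ ∀ k l, 0 ≤ dg k l →
      h k l = (if (k = i ∧ l = i) then 1 else 0) - (if (k = o ∧ l = o) then 1 else 0) := by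
  by_cases hio : i = o
  · subst hio
    exact ⟨0, H.zero_mem, Matrix.trace_zero _ _, fun k l _ => by rw [sub_self, Matrix.zero_apply]⟩
  · obtain ⟨z, hz, -, hzl⟩ := h1 hio
    obtain ⟨w, hw, -, hwl⟩ := h2 hio
    refine ⟨z * w - w * z, hH z hz w hw, trace_comm_zero z w, fun k l hd => ?_⟩
    rw [Matrix.sub_apply, mul_lead hio (Ne.symm hio) hzl hwl k l (by rw [dg_add, dg_self]; exact hd),
      mul_lead (Ne.symm hio) hio hwl hzl k l (by rw [dg_add, dg_self]; exact hd)]
    congr 1
    · congr 1
      simp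
    · congr 1
      simp

/-- all positions present: `H` contains all matrices of trace zero -/
theorem full_of_present [NeZero n] {H : Submodule ℂ (Matrix (Fin n) (Fin n) ℂ)}
    (hH : ∀ X ∈ H, ∀ Y ∈ H, X * Y - Y * X ∈ H) (hp : ∀ i j, i ≠ j → Pr H i j) :
    ∀ X : Matrix (Fin n) (Fin n) ℂ, X.trace = 0 → X ∈ H := by
  have key : ∀ t : ℕ, ∀ X : Matrix (Fin n) (Fin n) ℂ, X.trace = 0 →
      (∀ k l, (t : ℤ) - 3 ^ n ≤ dg k l → X k l = 0) → X ∈ H := by
    intro t
    induction t with
    | zero =>
      intro X _ hX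
      have : X = 0 := by
        ext k l
        refine hX k l ?_
        have := dg_gt k l
        push_cast
        linarith
      rw [this]
      exact H.zero_mem
    | succ t ih =>
      intro X htr hX
      by_cases h0 : (t : ℤ) - 3 ^ n = 0
      · choose h hh1 hh2 hh3 using fun i : Fin n => Pr.cartan hH i 0 (fun hne => hp i 0 hne)
          (fun hne => hp 0 i (Ne.symm hne))
        have hY : X - ∑ i, X i i • h i ∈ H := by
          refine ih _ ?_ ?_
          · rw [Matrix.trace_sub, htr, Matrix.trace_sum, zero_sub, neg_eq_zero]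
            refine Finset.sum_eq_zero fun i _ => ?_
            rw [Matrix.trace_smul, hh2 i, smul_zero]
          · intro k l hkl
            rw [h0] at hkl
            rw [Matrix.sub_apply, Matrix.sum_apply]
            simp only [Matrix.smul_apply, smul_eq_mul]
            rw [Finset.sum_congr rfl fun i _ => by rw [hh3 i k l hkl]]
            rcases hkl.lt_or_eq with h1 | h1
            · have hne : k ≠ l := by
                rintro rfl
                rw [dg_self] at h1
                exact lt_irrefl _ h1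
              have h2 : X k l = 0 := by
                refine hX k l ?_
                push_cast
                have h3 : (t : ℤ) + 1 - 3 ^ n = 1 := by linarith
                rw [h3]
                exact h1
              rw [h2, zero_sub, neg_eq_zero]
              refine Finset.sum_eq_zero fun i _ => ?_
              rw [if_neg, if_neg, sub_zero, mul_zero]
              · rintro ⟨e1, e2⟩
                exact hne (e1.trans e2.symm)
              · rintro ⟨e1, e2⟩
                exact hne (e1.trans e2.symm)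
            · have hkl' : k = l := dg_zero h1.symm
              subst hkl'
              simp only [and_self, mul_sub, Finset.sum_sub_distrib]
              rw [← Finset.sum_mul]
              have htr' : ∑ i, X i i = 0 := htr
              rw [htr', zero_mul, sub_zero]
              rw [Finset.sum_eq_single k]
              · rw [if_pos rfl, mul_one, sub_self]
              · intro i _ hi
                rw [if_neg (Ne.symm hi), mul_zero]
              · intro h
                exact absurd (Finset.mem_univ _) h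
        have h2 : ∑ i, X i i • h i ∈ H := H.sum_mem fun i _ => H.smul_mem _ (hh1 i)
        have := H.add_mem hY h2
        rwa [sub_add_cancel] at this
      · by_cases hex : ∃ i j : Fin n, dg i j = (t : ℤ) - 3 ^ n
        · obtain ⟨i, j, hij⟩ := hex
          have hne : i ≠ j := by
            rintro rfl
            rw [dg_self] at hij
            exact h0 hij.symm
          obtain ⟨z, hz, hztr, hzl⟩ := hp i j hne
          have hY : X - X i j • z ∈ H := by
            refine ih _ ?_ ?_
            · rw [Matrix.trace_sub, htr, Matrix.trace_smul, hztr, smul_zero, sub_zero]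
            · intro k l hkl
              rw [Matrix.sub_apply, Matrix.smul_apply, smul_eq_mul]
              by_cases he : (k, l) = (i, j)
              · rw [Prod.mk.injEq] at he
                rw [he.1, he.2, hzl.1, mul_one, sub_self]
              · rw [hzl.2 k l he (by rw [hij]; exact hkl), mul_zero, sub_zero]
                rcases hkl.lt_or_eq with h1 | h1
                · refine hX k l ?_
                  push_cast
                  linarith
                · exfalso
                  obtain ⟨e1, e2⟩ := dg_uniq hne (h1.symm.trans hij.symm)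
                  exact he (by rw [e1, e2])
          have := H.add_mem hY (H.smul_mem (X i j) hz)
          rwa [sub_add_cancel] at this
        · refine ih X htr fun k l hkl => hX k l ?_
          rcases hkl.lt_or_eq with h1 | h1
          · push_cast
            linarith
          · exact absurd ⟨k, l, h1.symm⟩ hex
  intro X htr
  refine key (2 * 3 ^ n) X htr fun k l hkl => ?_
  exfalso
  have := dg_lt k l
  push_cast at hkl
  linarith

/-- if few positions are missing, none is -/
theorem present_of_few {H : Submodule ℂ (Matrix (Fin n) (Fin n) ℂ)}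
    (hH : ∀ X ∈ H, ∀ Y ∈ H, X * Y - Y * X ∈ H) (Ms : Finset (Fin n × Fin n))
    (hMs : ∀ i j, i ≠ j → ¬ Pr H i j → (i, j) ∈ Ms) (hc : Ms.card + 2 ≤ n) :
    ∀ i j, i ≠ j → Pr H i j := by
  classical
  intro i k hik
  by_contra hm
  let f : Fin n → Fin n × Fin n := fun j => if Pr H i j then (j, k) else (i, j)
  have hf : ∀ j ∈ Finset.univ.erase i, f j ∈ Ms := by
    intro j hj
    have hji : j ≠ i := (Finset.mem_erase.1 hj).1
    by_cases h : Pr H i j
    · have e : f j = (j, k) := if_pos h
      rw [e]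
      have hjk : j ≠ k := by
        rintro rfl
        exact hm h
      exact hMs j k hjk fun h2 => hm (Pr.trans hH (Ne.symm hji) hjk hik h h2)
    · have e : f j = (i, j) := if_neg h
      rw [e]
      exact hMs i j (Ne.symm hji) h
  have hinj : Set.InjOn f (Finset.univ.erase i : Finset (Fin n)) := by
    intro a ha b hb hab
    have hai : a ≠ i := (Finset.mem_erase.1 (Finset.mem_coe.1 ha)).1
    have hbi : b ≠ i := (Finset.mem_erase.1 (Finset.mem_coe.1 hb)).1
    by_cases h1 : Pr H i a <;> by_cases h2 : Pr H i b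
    · have e1 : f a = (a, k) := if_pos h1
      have e2 : f b = (b, k) := if_pos h2
      rw [e1, e2, Prod.mk.injEq] at hab
      exact hab.1
    · have e1 : f a = (a, k) := if_pos h1
      have e2 : f b = (i, b) := if_neg h2
      rw [e1, e2, Prod.mk.injEq] at hab
      exact absurd hab.1 hai
    · have e1 : f a = (i, a) := if_neg h1
      have e2 : f b = (b, k) := if_pos h2
      rw [e1, e2, Prod.mk.injEq] at hab
      exact absurd hab.1.symm hbi
    · have e1 : f a = (i, a) := if_neg h1
      have e2 : f b = (i, b) := if_neg h2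
      rw [e1, e2, Prod.mk.injEq] at hab
      exact hab.2
  have h3 := Finset.card_le_card_of_injOn f hf hinj
  rw [Finset.card_erase_of_mem (Finset.mem_univ _), Finset.card_univ, Fintype.card_fin] at h3
  omega

/-- the number of missing positions is at most the codimension -/
theorem card_missing (H : Submodule ℂ (Matrix (Fin n) (Fin n) ℂ)) (s : ℕ) (Ms : Finset (Fin n × Fin n))
    (hMs : ∀ p ∈ Ms, p.1 ≠ p.2 ∧ ¬ Pr H p.1 p.2)
    (hs : ∀ e : Fin (s + 1) → Fin n × Fin n, (∀ j, (e j).1 ≠ (e j).2) →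
      ¬ LinearIndependent ℂ (fun j => H.mkQ (Matrix.single (e j).1 (e j).2 (1 : ℂ)))) :
    Ms.card ≤ s := by
  classical
  by_contra hlt
  push Not at hlt
  obtain ⟨T, hT, hTc⟩ := Finset.exists_subset_card_eq (show s + 1 ≤ Ms.card by omega)
  let e : Fin (s + 1) ≃ T := (Fintype.equivFinOfCardEq (by rw [Fintype.card_coe, hTc])).symm
  refine hs (fun j => (e j : Fin n × Fin n)) (fun j => (hMs _ (hT (e j).2)).1) ?_
  rw [Fintype.linearIndependent_iff]
  intro c hc
  by_contra hne
  push Not at hne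
  obtain ⟨j0, hj0⟩ := hne
  -- the nonzero coefficient of largest degree
  obtain ⟨j, hj, hmax⟩ := Finset.exists_max_image (Finset.univ.filter fun j => c j ≠ 0)
    (fun j => dg (e j : Fin n × Fin n).1 (e j : Fin n × Fin n).2)
    ⟨j0, Finset.mem_filter.2 ⟨Finset.mem_univ _, hj0⟩⟩
  have hcj : c j ≠ 0 := (Finset.mem_filter.1 hj).2
  obtain ⟨hne, hmiss⟩ := hMs _ (hT (e j).2)
  apply hmiss
  have hz : ∑ i, c i • Matrix.single (e i : Fin n × Fin n).1 (e i : Fin n × Fin n).2 (1 : ℂ) ∈ H := by
    rw [← Submodule.Quotient.mk_eq_zero, ← Submodule.mkQ_apply, map_sum]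
    rw [← hc]
    refine Finset.sum_congr rfl fun i _ => ?_
    rw [map_smul]
  have hent : ∀ k l, (∑ i, c i • Matrix.single (e i : Fin n × Fin n).1 (e i : Fin n × Fin n).2 (1 : ℂ)) k l
      = ∑ i, if (e i : Fin n × Fin n) = (k, l) then c i else 0 := by
    intro k l
    rw [Matrix.sum_apply]
    refine Finset.sum_congr rfl fun i _ => ?_
    rw [Matrix.smul_apply, Matrix.single_apply, smul_eq_mul]
    by_cases h : (e i : Fin n × Fin n) = (k, l)
    · rw [if_pos h, if_pos, mul_one]
      rw [h]
      exact ⟨rfl, rfl⟩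
    · rw [if_neg h, if_neg, mul_zero]
      rintro ⟨h1, h2⟩
      exact h (Prod.ext h1 h2)
  refine ⟨(c j)⁻¹ • ∑ i, c i • Matrix.single (e i : Fin n × Fin n).1 (e i : Fin n × Fin n).2 (1 : ℂ),
    H.smul_mem _ hz, ?_, ?_, ?_⟩
  · rw [Matrix.trace_smul, Matrix.trace_sum]
    rw [Finset.sum_eq_zero, smul_zero]
    intro i _
    rw [Matrix.trace_smul, Matrix.trace_single_eq_of_ne _ _ _ (hMs _ (hT (e i).2)).1, smul_zero]
  · rw [Matrix.smul_apply, hent, smul_eq_mul, Finset.sum_eq_single j]
    · rw [if_pos rfl, inv_mul_cancel₀ hcj]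
    · intro i _ hi
      rw [if_neg]
      intro h
      exact hi (e.injective (Subtype.ext h))
    · intro h
      exact absurd (Finset.mem_univ _) h
  · intro k l hkl hd
    rw [Matrix.smul_apply, hent, smul_eq_mul]
    rw [Finset.sum_eq_zero, mul_zero]
    intro i _
    by_cases h : (e i : Fin n × Fin n) = (k, l)
    · rw [if_pos h]
      by_contra hci
      have h5 := hmax i (Finset.mem_filter.2 ⟨Finset.mem_univ _, hci⟩)
      simp only [h] at h5
      obtain ⟨e1, e2⟩ := dg_uniq hne (le_antisymm h5 hd)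
      exact hkl (by rw [e1, e2])
    · rw [if_neg h]

/-- proper subalgebras of the trace-zero matrices have codimension at least `n - 1` -/
theorem nosub_gen [NeZero n] {s : ℕ} (hs : s + 2 ≤ n) (𝒩 : Set (Matrix (Fin n) (Fin n) ℂ))
    (h1 : ∀ i j : Fin n, i ≠ j → Matrix.single i j (1 : ℂ) ∈ 𝒩) (h2 : ∀ N ∈ 𝒩, N.trace = 0)
    (H : Submodule ℂ (Matrix (Fin n) (Fin n) ℂ)) (hH : ∀ X ∈ H, ∀ Y ∈ H, X * Y - Y * X ∈ H)
    (hv : ∀ v : Fin (s + 1) → Matrix (Fin n) (Fin n) ℂ, (∀ j, v j ∈ 𝒩) →
      ¬ LinearIndependent ℂ (fun j => H.mkQ (v j))) : 𝒩 ⊆ H := by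
  classical
  intro N hN
  let Ms : Finset (Fin n × Fin n) := Finset.univ.filter fun p => p.1 ≠ p.2 ∧ ¬ Pr H p.1 p.2
  have hc : Ms.card ≤ s := card_missing H s Ms (fun p hp => (Finset.mem_filter.1 hp).2)
    fun e he => hv _ fun j => h1 _ _ (he j)
  exact full_of_present hH (present_of_few hH Ms
    (fun i j hij hm => Finset.mem_filter.2 ⟨Finset.mem_univ _, hij, hm⟩) (by omega)) N (h2 N hN)

/-- the off-diagonal matrix units generate the trace-zero matrices by brackets -/
theorem perf_gen (hn : 3 ≤ n) (𝒩 : Set (Matrix (Fin n) (Fin n) ℂ))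
    (h1 : ∀ i j : Fin n, i ≠ j → Matrix.single i j (1 : ℂ) ∈ 𝒩) (h2 : ∀ N ∈ 𝒩, N.trace = 0) :
    ∀ N ∈ 𝒩, N ∈ Submodule.span ℂ {C : Matrix (Fin n) (Fin n) ℂ | ∃ A ∈ 𝒩, ∃ B ∈ 𝒩, C = A * B - B * A} := by
  classical
  intro N hN
  have : NeZero n := ⟨by omega⟩
  set S := Submodule.span ℂ {C : Matrix (Fin n) (Fin n) ℂ | ∃ A ∈ 𝒩, ∃ B ∈ 𝒩, C = A * B - B * A} with hS
  have h3 : ∀ i j : Fin n, i ≠ j → Matrix.single i j (1 : ℂ) ∈ S := by
    intro i j hij
    obtain ⟨l, hl⟩ : ∃ l : Fin n, l ∉ ({i, j} : Finset (Fin n)) := by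
      by_contra hall
      push Not at hall
      have h4 : (Finset.univ : Finset (Fin n)) ⊆ {i, j} := fun l _ => hall l
      have h5 := Finset.card_le_card h4
      rw [Finset.card_univ, Fintype.card_fin] at h5
      have h6 : ({i, j} : Finset (Fin n)).card ≤ 2 := Finset.card_le_two
      omega
    rw [Finset.mem_insert, Finset.mem_singleton, not_or] at hl
    refine Submodule.subset_span ⟨Matrix.single i l 1, h1 i l (Ne.symm hl.1), Matrix.single l j 1, h1 l j hl.2, ?_⟩
    rw [Matrix.single_mul_single_same, Matrix.single_mul_single_of_ne _ _ _ _ (Ne.symm hij), sub_zero, one_mul]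
  have h4 : ∀ i j : Fin n, Matrix.single i i (1 : ℂ) - Matrix.single j j 1 ∈ S := by
    intro i j
    by_cases hij : i = j
    · rw [hij, sub_self]
      exact S.zero_mem
    · refine Submodule.subset_span ⟨Matrix.single i j 1, h1 i j hij, Matrix.single j i 1, h1 j i (Ne.symm hij), ?_⟩
      rw [Matrix.single_mul_single_same, Matrix.single_mul_single_same, one_mul]
  have h5 : N = ∑ i, ∑ j, N i j • (Matrix.single i j (1 : ℂ) - if i = j then Matrix.single 0 0 1 else 0) := by
    simp only [smul_sub, Finset.sum_sub_distrib]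
    have h6 : ∑ i, ∑ j, N i j • (if i = j then (Matrix.single 0 0 1 : Matrix (Fin n) (Fin n) ℂ) else 0) = 0 := by
      have h7 : ∀ i, ∑ j, N i j • (if i = j then (Matrix.single 0 0 1 : Matrix (Fin n) (Fin n) ℂ) else 0)
          = N i i • Matrix.single 0 0 1 := by
        intro i
        rw [Finset.sum_eq_single i]
        · rw [if_pos rfl]
        · intro j _ hj
          rw [if_neg (Ne.symm hj), smul_zero]
        · intro h
          exact absurd (Finset.mem_univ _) h
      rw [Finset.sum_congr rfl fun i _ => h7 i, ← Finset.sum_smul]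
      have h8 : ∑ i, N i i = 0 := h2 N hN
      rw [h8, zero_smul]
    rw [h6, sub_zero]
    conv_lhs => rw [Matrix.matrix_eq_sum_single N]
    refine Finset.sum_congr rfl fun i _ => Finset.sum_congr rfl fun j _ => ?_
    rw [Matrix.smul_single, smul_eq_mul, mul_one]
  rw [h5]
  refine S.sum_mem fun i _ => S.sum_mem fun j _ => S.smul_mem _ ?_
  by_cases hij : i = j
  · subst hij
    rw [if_pos rfl]
    exact h4 i 0
  · rw [if_neg hij, sub_zero]
    exact h3 i j hij

theorem single_sq_zero {i j : Fin n} (hij : i ≠ j) :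
    Matrix.single i j (1 : ℂ) * Matrix.single i j 1 = 0 :=
  Matrix.single_mul_single_of_ne _ _ _ _ (Ne.symm hij) _

end Pool.Agent.H82.GF
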