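import Pool.Agent.T44.GF.Stm4
import Pool.Agent.H82.GF.CL1

/-!
# Subalgebras of small codimension: the special linear groups
-/

set_option autoImplicit false

open Matrix

namespace Pool.Agent.H82.GF.CLSL

open Pool.Agent.Y123.GN Pool.Agent.T44.GF Pool.Agent.H82.GF

theorem single_mem {n : ℕ} {i j : Fin n} (hij : i ≠ j) :
    Matrix.single i j (1 : ℂ) ∈ Nil (GB (0 : Matrix (Fin n) (Fin n) ℂ)) := by
  have h1 : IsNilpotent (Matrix.single i j (1 : ℂ)) := ⟨2, by rw [pow_two]; exact single_sq_zero hij⟩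
  refine ⟨h1, fun t => ?_⟩
  have h2 : IsNilpotent (t • Matrix.single i j (1 : ℂ)) := h1.smul t
  exact ⟨(IsNilpotent.isUnit_exp h2).unit, ⟨det_exp h1 t, by rw [Matrix.mul_zero, Matrix.zero_mul]⟩, rfl⟩

theorem trace_zero' {n : ℕ} {N : Matrix (Fin n) (Fin n) ℂ}
    (hN : N ∈ Nil (GB (0 : Matrix (Fin n) (Fin n) ℂ))) : N.trace = 0 :=
  (Matrix.isNilpotent_trace_of_isNilpotent hN.1).eq_zero

theorem main : S_CLSL := by
  intro n s hn hs
  have : NeZero n := ⟨by omega⟩
  exact ⟨perf_gen hn _ (fun i j hij => single_mem hij) fun N hN => trace_zero' hN,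
    fun H hH hv => nosub_gen hs _ (fun i j hij => single_mem hij) (fun N hN => trace_zero' hN) H hH hv⟩

end Pool.Agent.H82.GF.CLSL
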