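import Mathlib

/-!
# Congruence of invertible alternating matrices
-/

set_option autoImplicit false
set_option linter.unusedSectionVars false

open Matrix Module

namespace Pool.Agent.H82.GF

/-- the standard alternating matrix -/
def Sd (n : ℕ) : Matrix (Fin n) (Fin n) ℂ := Matrix.of fun i j =>
  if (i : ℕ) % 2 = 0 ∧ (j : ℕ) = i + 1 then 1 else if (j : ℕ) % 2 = 0 ∧ (i : ℕ) = j + 1 then -1 else 0

theorem Sd_00 (n : ℕ) : Sd (n + 2) 0 0 = 0 := by simp [Sd]
theorem Sd_01 (n : ℕ) : Sd (n + 2) 0 1 = 1 := by simp [Sd]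
theorem Sd_10 (n : ℕ) : Sd (n + 2) 1 0 = -1 := by simp [Sd]
theorem Sd_11 (n : ℕ) : Sd (n + 2) 1 1 = 0 := by simp [Sd]
theorem Sd_0s (n : ℕ) (j : Fin n) : Sd (n + 2) 0 j.succ.succ = 0 := by
  simp [Sd]
theorem Sd_1s (n : ℕ) (j : Fin n) : Sd (n + 2) 1 j.succ.succ = 0 := by
  simp [Sd]
theorem Sd_s0 (n : ℕ) (j : Fin n) : Sd (n + 2) j.succ.succ 0 = 0 := by
  simp [Sd]
theorem Sd_s1 (n : ℕ) (j : Fin n) : Sd (n + 2) j.succ.succ 1 = 0 := by
  simp [Sd]
theorem Sd_ss (n : ℕ) (i j : Fin n) : Sd (n + 2) i.succ.succ j.succ.succ = Sd n i j := by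
  simp only [Sd, Matrix.of_apply, Fin.val_succ]
  congr 1
  · apply propext
    constructor <;> rintro ⟨h1, h2⟩ <;> constructor <;> omega
  · congr 1
    apply propext
    constructor <;> rintro ⟨h1, h2⟩ <;> constructor <;> omega

theorem symp : ∀ (n : ℕ) (V : Type) [AddCommGroup V] [Module ℂ V] [FiniteDimensional ℂ V]
    (ω : V →ₗ[ℂ] V →ₗ[ℂ] ℂ), (∀ x, ω x x = 0) → (∀ x, (∀ y, ω x y = 0) → x = 0) → finrank ℂ V = n →
    ∃ b : Basis (Fin n) ℂ V, ∀ i j, ω (b i) (b j) = Sd n i j := by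
  intro n
  induction n using Nat.strong_induction_on with
  | _ n ih =>
    intro V _ _ _ ω halt hnd hdim
    have hskew : ∀ x y, ω y x = -ω x y := by
      intro x y
      have h1 := halt (x + y)
      simp only [map_add, LinearMap.add_apply, halt, zero_add, add_zero] at h1
      linear_combination h1
    match n, ih, hdim with
    | 0, _, hdim =>
      exact ⟨(finBasis ℂ V).reindex (finCongr hdim), fun i => i.elim0⟩
    | 1, _, hdim =>
      exfalso
      have : Nontrivial V := Module.nontrivial_of_finrank_pos (R := ℂ) (by omega)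
      obtain ⟨u, hu⟩ := exists_ne (0 : V)
      obtain ⟨z, hz⟩ := finrank_le_one_iff.1 hdim.le
      apply hu
      refine hnd u fun y => ?_
      obtain ⟨a, rfl⟩ := hz u
      obtain ⟨c, rfl⟩ := hz y
      simp [halt]
    | n + 2, ih, hdim =>
      have : Nontrivial V := Module.nontrivial_of_finrank_pos (R := ℂ) (by omega)
      obtain ⟨u, hu⟩ := exists_ne (0 : V)
      obtain ⟨v0, hv0⟩ : ∃ v0, ω u v0 ≠ 0 := by
        by_contra hcon
        push Not at hcon
        exact hu (hnd u hcon)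
      obtain ⟨v, huv⟩ : ∃ v, ω u v = 1 := ⟨(ω u v0)⁻¹ • v0, by rw [map_smul, smul_eq_mul, inv_mul_cancel₀ hv0]⟩
      have hvu : ω v u = -1 := by rw [hskew u v, huv]
      obtain ⟨Φ, hΦ⟩ : ∃ Φ : V →ₗ[ℂ] ℂ × ℂ, ∀ x, Φ x = (ω u x, ω v x) :=
        ⟨(ω u).prod (ω v), fun x => rfl⟩
      have hsurj : LinearMap.range Φ = ⊤ := by
        rw [LinearMap.range_eq_top]
        rintro ⟨a, c⟩
        refine ⟨a • v - c • u, ?_⟩
        rw [hΦ]
        simp [halt, huv, hvu]
      have hrn := LinearMap.finrank_range_add_finrank_ker Φ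
      rw [hsurj, finrank_top, Module.finrank_prod, finrank_self, hdim] at hrn
      set W := LinearMap.ker Φ with hW
      have hWdim : finrank ℂ W = n := by omega
      have hWmem : ∀ x, x ∈ W ↔ ω u x = 0 ∧ ω v x = 0 := by
        intro x
        rw [hW, LinearMap.mem_ker, hΦ, Prod.mk_eq_zero]
      have hcomp : ∀ x, x - ω x v • u - ω u x • v ∈ W := by
        intro x
        rw [hWmem]
        constructor
        · simp [halt, huv]
        · simp [halt, hvu, hskew x v]
      obtain ⟨b, hb⟩ := ih n (by omega) W (ω.domRestrict₁₂ W W) (fun x => halt x) (by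
        intro x hx
        apply Subtype.ext
        refine hnd x fun y => ?_
        have h1 := hx ⟨_, hcomp y⟩
        rw [LinearMap.domRestrict₁₂_apply] at h1
        obtain ⟨h2, h3⟩ := (hWmem x).1 x.2
        have h4 : ω x u = 0 := by rw [hskew u x, h2, neg_zero]
        have h5 : ω x v = 0 := by rw [hskew v x, h3, neg_zero]
        simpa [h4, h5] using h1) hWdim
      set f : Fin (n + 2) → V := Fin.cons u (Fin.cons v fun i => (b i : V)) with hf
      have f0 : f 0 = u := rfl
      have f1 : f 1 = v := rfl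
      have fs : ∀ i : Fin n, f i.succ.succ = b i := fun i => rfl
      have hub : ∀ i, ω u (b i) = 0 := fun i => ((hWmem _).1 (b i).2).1
      have hvb : ∀ i, ω v (b i) = 0 := fun i => ((hWmem _).1 (b i).2).2
      have hbu : ∀ i, ω (b i) u = 0 := fun i => by rw [hskew u, hub, neg_zero]
      have hbv : ∀ i, ω (b i) v = 0 := fun i => by rw [hskew v, hvb, neg_zero]
      have hgram : ∀ i j, ω (f i) (f j) = Sd (n + 2) i j := by
        intro i j
        refine Fin.cases ?_ (fun i => Fin.cases ?_ (fun i => ?_) i) i <;>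
        refine Fin.cases ?_ (fun j => Fin.cases ?_ (fun j => ?_) j) j
        · rw [f0, halt, Sd_00]
        · show ω (f 0) (f 1) = Sd (n + 2) 0 1
          rw [f0, f1, huv, Sd_01]
        · rw [f0, fs, hub, Sd_0s]
        · show ω (f 1) (f 0) = Sd (n + 2) 1 0
          rw [f0, f1, hvu, Sd_10]
        · show ω (f 1) (f 1) = Sd (n + 2) 1 1
          rw [f1, halt, Sd_11]
        · show ω (f 1) (f j.succ.succ) = Sd (n + 2) 1 j.succ.succ
          rw [f1, fs, hvb, Sd_1s]
        · rw [f0, fs, hbu, Sd_s0]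
        · show ω (f i.succ.succ) (f 1) = Sd (n + 2) i.succ.succ 1
          rw [f1, fs, hbv, Sd_s1]
        · rw [fs, fs, Sd_ss, ← hb]
          rfl
      have hli : LinearIndependent ℂ f := by
        rw [Fintype.linearIndependent_iff]
        intro g hg
        rw [Fin.sum_univ_succ, Fin.sum_univ_succ] at hg
        have hg' : g 0 • u + (g 1 • v + ∑ i : Fin n, g i.succ.succ • (b i : V)) = 0 := hg
        have e0 : g 0 = 0 := by
          have h1 := congrArg (fun x => ω x v) hg'
          simp only [map_add, map_smul, map_sum, LinearMap.add_apply, LinearMap.smul_apply, LinearMap.sum_apply,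
            halt, huv, hbv, smul_eq_mul, mul_zero, mul_one, Finset.sum_const_zero, add_zero, map_zero,
            LinearMap.zero_apply] at h1
          exact h1
        have e1 : g 1 = 0 := by
          have h1 := congrArg (fun x => ω u x) hg'
          simp only [map_add, map_smul, map_sum, halt, huv, hub, smul_eq_mul, mul_zero, mul_one,
            Finset.sum_const_zero, add_zero, zero_add, map_zero] at h1
          exact h1
        rw [e0, e1, zero_smul, zero_smul, zero_add, zero_add] at hg'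
        have e2 : ∑ i : Fin n, g i.succ.succ • b i = 0 := by
          apply Subtype.ext
          push_cast
          exact hg'
        have e3 := Fintype.linearIndependent_iff.1 b.linearIndependent _ e2
        intro i
        refine Fin.cases e0 (fun i => Fin.cases e1 (fun i => e3 i) i) i
      refine ⟨basisOfLinearIndependentOfCardEqFinrank hli (by rw [Fintype.card_fin, hdim]), fun i j => ?_⟩
      rw [coe_basisOfLinearIndependentOfCardEqFinrank]
      exact hgram i j

/-- an invertible alternating matrix is congruent to the standard one -/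
theorem congr_Sd {n : ℕ} {A : Matrix (Fin n) (Fin n) ℂ} (hA : Aᵀ = -A) (hdet : A.det ≠ 0) :
    ∃ P : Matrix (Fin n) (Fin n) ℂ, P.det ≠ 0 ∧ P * A * Pᵀ = Sd n := by
  have hω : ∀ x y : Fin n → ℂ, Matrix.toLinearMap₂' ℂ A x y = x ⬝ᵥ (A *ᵥ y) := by
    intro x y
    rw [Matrix.toLinearMap₂'_apply']
  have hskew : ∀ x : Fin n → ℂ, x ⬝ᵥ (A *ᵥ x) = 0 := by
    intro x
    have h1 : x ⬝ᵥ (A *ᵥ x) = x ⬝ᵥ (Aᵀ *ᵥ x) := by
      rw [mulVec_transpose, dotProduct_comm x (x ᵥ* A), ← dotProduct_mulVec]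
    rw [hA, neg_mulVec, dotProduct_neg] at h1
    have h2 : (2 : ℂ) * (x ⬝ᵥ (A *ᵥ x)) = 0 := by linear_combination h1
    simpa using h2
  obtain ⟨b, hb⟩ := symp n (Fin n → ℂ) (Matrix.toLinearMap₂' ℂ A) (fun x => by rw [hω, hskew]) (by
    intro x hx
    have h1 : x ᵥ* A = 0 := by
      funext j
      have h2 := hx (Pi.single j 1)
      rw [hω, dotProduct_mulVec, dotProduct_single_one] at h2
      exact h2
    have h3 : x = x ᵥ* A ᵥ* A⁻¹ := by
      rw [vecMul_vecMul, mul_nonsing_inv _ (Ne.isUnit hdet), vecMul_one]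
    rw [h3, h1, zero_vecMul]) (finrank_fin_fun ℂ)
  set P : Matrix (Fin n) (Fin n) ℂ := Matrix.of fun i a => b i a with hP
  have hPA : P * A * Pᵀ = Sd n := by
    ext i j
    rw [← hb, hω, Matrix.mul_apply]
    rw [dotProduct_mulVec]
    rfl
  refine ⟨P, ?_, hPA⟩
  have hli : LinearIndependent ℂ P.row := b.linearIndependent
  exact ((Matrix.isUnit_iff_isUnit_det _).1 (Matrix.linearIndependent_rows_iff_isUnit.1 hli)).ne_zero

/-- two invertible alternating matrices are congruent -/
theorem congr_alt {n : ℕ} {A B : Matrix (Fin n) (Fin n) ℂ} (hA : Aᵀ = -A) (hAd : A.det ≠ 0) (hB : Bᵀ = -B)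
    (hBd : B.det ≠ 0) : ∃ C : Matrix (Fin n) (Fin n) ℂ, C.det ≠ 0 ∧ B = C * A * Cᵀ := by
  obtain ⟨P, hP, hPA⟩ := congr_Sd hA hAd
  obtain ⟨Q, hQ, hQB⟩ := congr_Sd hB hBd
  have hQu : IsUnit Q.det := Ne.isUnit hQ
  refine ⟨Q⁻¹ * P, ?_, ?_⟩
  · rw [Matrix.det_mul]
    exact mul_ne_zero (Matrix.isUnit_nonsing_inv_det _ hQu).ne_zero hP
  · have h1 : Q⁻¹ * P * A * (Q⁻¹ * P)ᵀ = Q⁻¹ * (P * A * Pᵀ) * (Q⁻¹)ᵀ := by
      rw [Matrix.transpose_mul]
      simp only [Matrix.mul_assoc]
    rw [h1, hPA, ← hQB]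
    have h2 : Qᵀ * (Q⁻¹)ᵀ = 1 := by rw [← Matrix.transpose_mul, nonsing_inv_mul _ hQu, Matrix.transpose_one]
    calc B = (Q⁻¹ * Q) * B * (Qᵀ * (Q⁻¹)ᵀ) := by
          rw [nonsing_inv_mul _ hQu, h2, Matrix.one_mul, Matrix.mul_one]
      _ = _ := by simp only [Matrix.mul_assoc]

end Pool.Agent.H82.GF
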