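import Pool.Agent.T44.GF.Stm4
import Pool.Agent.H82.GF.CP1

/-!
# Subalgebras of small codimension: the symplectic groups
-/

set_option autoImplicit false
set_option linter.unusedSectionVars false

open Matrix

namespace Pool.Agent.H82.GF.CLSP

open Pool.Agent.Y123.GN Pool.Agent.T44.GF Pool.Agent.H82.GF Pool.Agent.Y118.HP Pool.Agent.Y123.ST

variable {n : ℕ}

/-- the derivative of the invariance -/
theorem nil_skew {B N : Matrix (Fin n) (Fin n) ℂ} (hN : N ∈ Nil (GB B)) : N * B + B * Nᵀ = 0 := by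
  obtain ⟨hnil, hexp⟩ := hN
  obtain ⟨E, h1, h2⟩ := exists_expP hnil
  have h3 : E * B.map Polynomial.C * Eᵀ = B.map Polynomial.C := by
    refine ext_ev fun t => ?_
    obtain ⟨u, hu, hue⟩ := hexp t
    have h4 : ev t Eᵀ = (ev t E)ᵀ := rfl
    rw [ev_mul, ev_mul, ev_C, h4, h1, ← hue]
    exact hu.2
  have h5 := congrArg dr h3
  have h6 : dr Eᵀ = (dr E)ᵀ := rfl
  rw [dr_mul, dr_mul, dr_C, Matrix.mul_zero, add_zero, h6, h2] at h5
  have h7 := congrArg (Pool.Agent.Y123.GN.ev 0) h5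
  have h8 : ev 0 E = 1 := by rw [h1, exp_zero']
  have h9 : ∀ A : Matrix (Fin n) (Fin n) (Polynomial ℂ), ev 0 Aᵀ = (ev 0 A)ᵀ := fun _ => rfl
  have h10 : ev 0 (0 : Matrix (Fin n) (Fin n) (Polynomial ℂ)) = 0 := by
    ext a b
    exact Polynomial.eval_zero
  rw [ev_add, ev_mul, ev_mul, ev_mul, ev_mul, ev_mul, h9, h9, ev_mul, ev_C, ev_C, h8, h10] at h7
  simpa using h7

theorem inv_skew' {B : Matrix (Fin n) (Fin n) ℂ} (hB : Bᵀ = -B) (hdet : B.det ≠ 0) : (B⁻¹)ᵀ = -B⁻¹ := by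
  rw [transpose_nonsing_inv, hB]
  apply inv_eq_left_inv
  rw [neg_mul_neg, nonsing_inv_mul _ (Ne.isUnit hdet)]

theorem nv_mem {B : Matrix (Fin n) (Fin n) ℂ} (hB : Bᵀ = -B) (hdet : B.det ≠ 0) (v : Fin n → ℂ) :
    nv B⁻¹ v ∈ Nil (GB B) :=
  ⟨nv_nil (inv_skew' hB hdet) v, fun t =>
    GB_of_iso hdet (nv_isom (inv_skew' hB hdet) v t) (det_exp (nv_nil (inv_skew' hB hdet) v) t)⟩

theorem span_nv {B N : Matrix (Fin n) (Fin n) ℂ} (hB : Bᵀ = -B) (hdet : B.det ≠ 0) (hN : N ∈ Nil (GB B)) :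
    N ∈ Submodule.span ℂ (Set.range (nv B⁻¹)) := by
  have hu := Ne.isUnit hdet
  refine nv_span (inv_skew' hB hdet) (Matrix.isUnit_nonsing_inv_det _ hu).ne_zero ?_
  have h1 := nil_skew hN
  have h2 : B⁻¹ * (N * B + B * Nᵀ) * B⁻¹ = B⁻¹ * N + Nᵀ * B⁻¹ := by
    rw [Matrix.mul_add, Matrix.add_mul]
    congr 1
    · rw [← Matrix.mul_assoc, Matrix.mul_assoc, mul_nonsing_inv _ hu, Matrix.mul_one]
    · rw [← Matrix.mul_assoc, nonsing_inv_mul _ hu, Matrix.one_mul]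
  rw [h1, Matrix.mul_zero, Matrix.zero_mul] at h2
  rw [add_comm]
  exact h2.symm

theorem perf {B : Matrix (Fin n) (Fin n) ℂ} (hB : Bᵀ = -B) (hdet : B.det ≠ 0) : Perf (Nil (GB B)) := by
  intro N hN
  have h1 := span_nv hB hdet hN
  have hJd : (B⁻¹).det ≠ 0 := (Matrix.isUnit_nonsing_inv_det _ (Ne.isUnit hdet)).ne_zero
  refine (Submodule.span_le.2 ?_) h1
  rintro _ ⟨v, rfl⟩
  refine (Submodule.span_mono ?_) (nv_perf (inv_skew' hB hdet) hJd v)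
  rintro _ ⟨u, w, rfl⟩
  exact ⟨_, nv_mem hB hdet u, _, nv_mem hB hdet w, rfl⟩

theorem even_of {B : Matrix (Fin n) (Fin n) ℂ} (hB : Bᵀ = -B) (hdet : B.det ≠ 0) : Even n := by
  by_contra hodd
  rw [Nat.not_even_iff_odd] at hodd
  have h1 : B.det = -B.det := by
    conv_lhs => rw [← Matrix.det_transpose, hB, Matrix.det_neg, Fintype.card_fin, hodd.neg_one_pow]
    ring
  have h2 : (2 : ℂ) * B.det = 0 := by linear_combination h1
  exact hdet (by simpa using h2)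

theorem nosub (hC : S_CODIM2) {s : ℕ} (h4 : 4 ≤ n) (hs : s + 2 ≤ n) {B : Matrix (Fin n) (Fin n) ℂ} (hB : Bᵀ = -B)
    (hdet : B.det ≠ 0) : NoSub s (Nil (GB B)) := by
  intro H hH hv N hN
  have hev := even_of hB hdet
  have hjT : (jm ℂ n)ᵀ = -jm ℂ n := jm_transpose
  have hjd : (jm ℂ n).det ≠ 0 := jm_det hev
  have hnB : (-B)ᵀ = -(-B) := by rw [Matrix.transpose_neg, hB]
  have hnBd : (-B).det ≠ 0 := by
    rw [Matrix.det_neg]
    exact mul_ne_zero (pow_ne_zero _ (by norm_num)) hdet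
  obtain ⟨C, hCd, hCB⟩ := congr_alt hjT hjd hnB hnBd
  have hCu : IsUnit C.det := Ne.isUnit hCd
  have hBu : IsUnit B.det := Ne.isUnit hdet
  -- conjugation
  have hconj : ∀ v : Fin n → ℂ, C * EE v * C⁻¹ = nv B⁻¹ (C *ᵥ (jm ℂ n *ᵥ v)) := by
    intro v
    have e1 : C * EE v * C⁻¹ = vecMulVec (C *ᵥ (jm ℂ n *ᵥ v)) (v ᵥ* C⁻¹) := by
      unfold EE
      rw [Matrix.mul_vecMulVec, Matrix.vecMulVec_mul]
    rw [e1]
    unfold nv
    congr 1
    -- `v C⁻¹ = (C jm v) B⁻¹`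
    have e2 : B = -(C * jm ℂ n * Cᵀ) := by rw [← hCB, neg_neg]
    have e3 : v ᵥ* C⁻¹ ᵥ* B = C *ᵥ (jm ℂ n *ᵥ v) := by
      rw [e2, vecMul_vecMul, Matrix.mul_neg]
      have e4 : C⁻¹ * (C * jm ℂ n * Cᵀ) = jm ℂ n * Cᵀ := by
        rw [← Matrix.mul_assoc, ← Matrix.mul_assoc, nonsing_inv_mul _ hCu, Matrix.one_mul]
      rw [e4, Matrix.vecMul_neg, ← Matrix.mulVec_transpose, Matrix.transpose_mul, Matrix.transpose_transpose, hjT,
        Matrix.mul_neg, Matrix.neg_mulVec, neg_neg, Matrix.mulVec_mulVec]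
    rw [← e3, vecMul_vecMul, mul_nonsing_inv _ hBu, vecMul_one]
  set κ : Matrix (Fin n) (Fin n) ℂ →ₗ[ℂ] Matrix (Fin n) (Fin n) ℂ :=
    (LinearMap.mulLeft ℂ C) ∘ₗ (LinearMap.mulRight ℂ C⁻¹) with hκ
  have hκa : ∀ X, κ X = C * X * C⁻¹ := by
    intro X
    rw [hκ, LinearMap.comp_apply, LinearMap.mulLeft_apply, LinearMap.mulRight_apply, Matrix.mul_assoc]
  have hκm : ∀ X Y, κ X * κ Y = κ (X * Y) := by
    intro X Y
    rw [hκa, hκa, hκa]
    calc C * X * C⁻¹ * (C * Y * C⁻¹) = C * X * (C⁻¹ * C) * Y * C⁻¹ := by simp only [Matrix.mul_assoc]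
      _ = C * (X * Y) * C⁻¹ := by rw [nonsing_inv_mul _ hCu, Matrix.mul_one]; simp only [Matrix.mul_assoc]
  have h1 := hC n hev h4 (H.comap κ) (by
    intro X hX Y hY
    rw [Submodule.mem_comap] at hX hY ⊢
    rw [map_sub, ← hκm, ← hκm]
    exact hH _ hX _ hY) (by
    intro v hli
    have hle : s + 1 ≤ n - 1 := by omega
    refine hv (fun j => nv B⁻¹ (C *ᵥ (jm ℂ n *ᵥ v (Fin.castLE hle j)))) (fun j => nv_mem hB hdet _) ?_
    have h2 := hli.comp (Fin.castLE hle) (Fin.castLE_injective hle)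
    rw [Fintype.linearIndependent_iff] at h2 ⊢
    intro g hg j
    refine h2 g ?_ j
    have h3 : ∑ i, g i • nv B⁻¹ (C *ᵥ (jm ℂ n *ᵥ v (Fin.castLE hle i))) ∈ H := by
      rw [← Submodule.Quotient.mk_eq_zero, ← Submodule.mkQ_apply, map_sum, ← hg]
      refine Finset.sum_congr rfl fun i _ => ?_
      rw [map_smul]
    have h5 : ∑ i, g i • EE (v (Fin.castLE hle i)) ∈ H.comap κ := by
      rw [Submodule.mem_comap, map_sum]
      have e : ∀ i, κ (g i • EE (v (Fin.castLE hle i))) = g i • nv B⁻¹ (C *ᵥ (jm ℂ n *ᵥ v (Fin.castLE hle i))) := by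
        intro i
        rw [map_smul, hκa, hconj]
      rw [Finset.sum_congr rfl fun i _ => e i]
      exact h3
    rw [← Submodule.Quotient.mk_eq_zero, ← Submodule.mkQ_apply, map_sum] at h5
    rw [← h5]
    refine Finset.sum_congr rfl fun i _ => ?_
    rw [map_smul]
    rfl)
  have hall : ∀ w : Fin n → ℂ, nv B⁻¹ w ∈ H := by
    intro w
    have h2 := h1 ((jm ℂ n)⁻¹ *ᵥ (C⁻¹ *ᵥ w))
    rw [Submodule.mem_comap, hκa, hconj, Matrix.mulVec_mulVec _ (jm ℂ n), mul_nonsing_inv _ (Ne.isUnit hjd),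
      Matrix.one_mulVec, Matrix.mulVec_mulVec, mul_nonsing_inv _ hCu, Matrix.one_mulVec] at h2
    exact h2
  refine (Submodule.span_le.2 ?_) (span_nv hB hdet hN)
  rintro _ ⟨w, rfl⟩
  exact hall w

theorem main (h : S_CODIM2) : S_CLSP := by
  intro n s B hB hBu h4 hs
  have hdet : B.det ≠ 0 := ((Matrix.isUnit_iff_isUnit_det _).1 hBu).ne_zero
  exact ⟨perf hB hdet, nosub h h4 hs hB hdet⟩

end Pool.Agent.H82.GF.CLSP
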